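import Pool.Agent.Helper16.HR.Defs

/-! Basic lemmas: averages, mixing of tuples, conditional expectations. -/

set_option autoImplicit false
set_option linter.unusedSectionVars false

namespace Pool.Helper16.HR

open Finset

section

variable {I V : Type} [Fintype I] [DecidableEq I] [Fintype V]

theorem card_pos_fun [Nonempty V] : (0 : ℝ) < (Fintype.card (I → V) : ℝ) := by
  exact_mod_cast Fintype.card_pos

theorem av_add (f g : (I → V) → ℝ) : av (fun x => f x + g x) = av f + av g := by
  unfold av
  rw [sum_add_distrib, add_div]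

theorem av_sub (f g : (I → V) → ℝ) : av (fun x => f x - g x) = av f - av g := by
  unfold av
  rw [sum_sub_distrib, sub_div]

theorem av_mul_left (a : ℝ) (f : (I → V) → ℝ) : av (fun x => a * f x) = a * av f := by
  unfold av
  rw [← mul_sum, mul_div_assoc]

theorem av_mul_right (a : ℝ) (f : (I → V) → ℝ) : av (fun x => f x * a) = av f * a := by
  rw [show (fun x => f x * a) = (fun x => a * f x) from funext fun x => mul_comm _ _,
    av_mul_left, mul_comm]

theorem av_sum {ι : Type} (s : Finset ι) (f : ι → (I → V) → ℝ) :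
    av (fun x => ∑ i ∈ s, f i x) = ∑ i ∈ s, av (f i) := by
  unfold av
  rw [sum_comm, sum_div]

theorem av_const [Nonempty V] (a : ℝ) : av (fun _ : I → V => a) = a := by
  unfold av
  rw [sum_const, card_univ, nsmul_eq_mul, mul_comm, mul_div_assoc,
    div_self (ne_of_gt card_pos_fun), mul_one]

theorem av_mono {f g : (I → V) → ℝ} (h : ∀ x, f x ≤ g x) : av f ≤ av g := by
  unfold av
  exact div_le_div_of_nonneg_right (sum_le_sum fun x _ => h x) (Nat.cast_nonneg _)

theorem av_nonneg {f : (I → V) → ℝ} (h : ∀ x, 0 ≤ f x) : 0 ≤ av f := by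
  unfold av
  exact div_nonneg (sum_nonneg fun x _ => h x) (Nat.cast_nonneg _)

theorem abs_av_le (f : (I → V) → ℝ) : |av f| ≤ av (fun x => |f x|) := by
  unfold av
  rw [abs_div, abs_of_nonneg (Nat.cast_nonneg (α := ℝ) (Fintype.card (I → V)))]
  exact div_le_div_of_nonneg_right (abs_sum_le_sum_abs _ _) (Nat.cast_nonneg _)

theorem av_le_one [Nonempty V] {f : (I → V) → ℝ} (h : ∀ x, f x ≤ 1) : av f ≤ 1 := by
  rw [← av_const (I := I) (V := V) 1]
  exact av_mono h

theorem av_congr {f g : (I → V) → ℝ} (h : ∀ x, f x = g x) : av f = av g := by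
  rw [funext h]

/-- Cauchy-Schwarz -/
theorem av_mul_sq_le (f g : (I → V) → ℝ) :
    av (fun x => f x * g x) ^ 2 ≤ av (fun x => f x ^ 2) * av (fun x => g x ^ 2) := by
  unfold av
  rw [div_pow, div_mul_div_comm, ← pow_two (Fintype.card (I → V) : ℝ)]
  exact div_le_div_of_nonneg_right (sum_mul_sq_le_sq_mul_sq _ _ _) (by positivity)

/-! Mixing: `T.piecewise x w` equals `x` on `T` and `w` off `T`. -/

theorem mix_swap (T : Finset I) (x w : I → V) :
    T.piecewise (T.piecewise x w) (T.piecewise w x) = x := by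
  funext i
  by_cases h : i ∈ T <;> simp [h]

theorem av_mix [Nonempty V] (T : Finset I) (f : (I → V) → ℝ) :
    av f = av (fun w => av (fun x => f (T.piecewise x w))) := by
  unfold av
  rw [← sum_div, div_div,
    ← sum_product' (s := (univ : Finset (I → V))) (t := (univ : Finset (I → V)))
      (f := fun w x => f (T.piecewise x w))]
  have h : ∑ p ∈ (univ : Finset (I → V)) ×ˢ (univ : Finset (I → V)), f (T.piecewise p.2 p.1) =
      ∑ p ∈ (univ : Finset (I → V)) ×ˢ (univ : Finset (I → V)), f p.1 := by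
    refine sum_nbij' (fun p => (T.piecewise p.2 p.1, T.piecewise p.1 p.2))
      (fun p => (T.piecewise p.2 p.1, T.piecewise p.1 p.2)) (by simp) (by simp) ?_ ?_ ?_
    · intro p _
      have h1 := mix_swap T p.1 p.2
      have h2 := mix_swap T p.2 p.1
      exact Prod.ext h1 h2
    · intro p _
      have h1 := mix_swap T p.1 p.2
      have h2 := mix_swap T p.2 p.1
      exact Prod.ext h1 h2
    · intro p _
      rfl
  rw [h, sum_product]
  simp only [sum_const, card_univ, nsmul_eq_mul, ← mul_sum]
  have h0 : (Fintype.card (I → V) : ℝ) ≠ 0 := ne_of_gt card_pos_fun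
  field_simp

/-! Classes and conditional expectations -/

variable {L : Finset (Finset I)} {c c' : Finset I → (I → V) → ℕ} {T : Finset I}

theorem mem_below {U : Finset I} : U ∈ below L T ↔ U ∈ L ∧ U ⊂ T := by
  unfold below
  rw [mem_filter]

theorem mem_cls {x y : I → V} : y ∈ cls L c T x ↔ ∀ U ∈ below L T, c U y = c U x := by
  unfold cls
  simp

theorem self_mem_cls (x : I → V) : x ∈ cls L c T x := mem_cls.2 fun _ _ => rfl

theorem cls_card_pos (x : I → V) : (0 : ℝ) < ((cls L c T x).card : ℝ) := by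
  exact_mod_cast card_pos.2 ⟨x, self_mem_cls x⟩

theorem cls_eq {x y : I → V} (h : y ∈ cls L c T x) : cls L c T y = cls L c T x := by
  ext z
  rw [mem_cls, mem_cls]
  rw [mem_cls] at h
  constructor
  · intro h1 U hU
    rw [h1 U hU, h U hU]
  · intro h1 U hU
    rw [h1 U hU, h U hU]

theorem cls_symm {x y : I → V} (h : y ∈ cls L c T x) : x ∈ cls L c T y := by
  rw [mem_cls] at *
  exact fun U hU => (h U hU).symm

theorem ce_eq {x y : I → V} (f : (I → V) → ℝ) (h : y ∈ cls L c T x) :
    ce L c T f y = ce L c T f x := by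
  unfold ce
  rw [cls_eq h]

/-- the colours below `T` depend on `T` -/
theorem cls_dep (hc : ∀ U ∈ L, Dep U (c U)) : Dep T (cls L c T) := by
  intro x y h
  apply cls_eq
  rw [mem_cls]
  intro U hU
  rw [mem_below] at hU
  exact hc U hU.1 x y fun i hi => h i (hU.2.1 hi)

theorem ce_dep (hc : ∀ U ∈ L, Dep U (c U)) (f : (I → V) → ℝ) : Dep T (ce L c T f) := by
  intro x y h
  unfold ce
  rw [cls_dep hc x y h]

theorem ce_nonneg {f : (I → V) → ℝ} (h : ∀ x, 0 ≤ f x) (x : I → V) : 0 ≤ ce L c T f x := by
  unfold ce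
  exact div_nonneg (sum_nonneg fun y _ => h y) (Nat.cast_nonneg _)

theorem ce_le_one {f : (I → V) → ℝ} (h : ∀ x, f x ≤ 1) (x : I → V) : ce L c T f x ≤ 1 := by
  unfold ce
  rw [div_le_one (cls_card_pos x)]
  calc ∑ y ∈ cls L c T x, f y ≤ ∑ _y ∈ cls L c T x, (1 : ℝ) := sum_le_sum fun y _ => h y
    _ = _ := by simp

theorem ce_sum {ι : Type} (s : Finset ι) (f : ι → (I → V) → ℝ) (x : I → V) :
    ce L c T (fun y => ∑ i ∈ s, f i y) x = ∑ i ∈ s, ce L c T (f i) x := by
  unfold ce
  rw [sum_comm, sum_div]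

theorem ce_mul {f φ : (I → V) → ℝ} (hφ : ∀ x, ∀ y ∈ cls L c T x, φ y = φ x) (x : I → V) :
    ce L c T (fun y => f y * φ y) x = ce L c T f x * φ x := by
  unfold ce
  have h1 : ∑ y ∈ cls L c T x, f y * φ y = (∑ y ∈ cls L c T x, f y) * φ x := by
    rw [sum_mul]
    exact sum_congr rfl fun y hy => by rw [hφ x y hy]
  rw [h1]
  ring

/-- the average of a conditional expectation -/
theorem av_ce (f : (I → V) → ℝ) : av (ce L c T f) = av f := by
  classical
  unfold av
  congr 1
  unfold ce
  have h1 : ∀ x : I → V, (∑ y ∈ cls L c T x, f y) / ((cls L c T x).card : ℝ) =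
      ∑ y, if y ∈ cls L c T x then f y / ((cls L c T y).card : ℝ) else 0 := by
    intro x
    rw [sum_div, ← sum_filter]
    have h2 : univ.filter (fun y => y ∈ cls L c T x) = cls L c T x := by
      ext y
      simp
    rw [h2]
    exact sum_congr rfl fun y hy => by rw [cls_eq hy]
  rw [sum_congr rfl fun x _ => h1 x, sum_comm]
  refine sum_congr rfl fun y _ => ?_
  rw [← sum_filter]
  have h3 : univ.filter (fun x => y ∈ cls L c T x) = cls L c T y := by
    ext x
    simp only [mem_filter, mem_univ, true_and]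
    exact ⟨fun h => cls_symm h, fun h => cls_symm h⟩
  rw [h3, sum_const, nsmul_eq_mul, mul_div_assoc', mul_comm, mul_div_assoc,
    div_self (ne_of_gt (cls_card_pos y)), mul_one]

/-- testing against functions which are constant on classes -/
theorem av_ce_mul {f φ : (I → V) → ℝ} (hφ : ∀ x, ∀ y ∈ cls L c T x, φ y = φ x) :
    av (fun x => ce L c T f x * φ x) = av (fun x => f x * φ x) := by
  rw [← av_ce (L := L) (c := c) (T := T) (fun x => f x * φ x)]
  exact av_congr fun x => (ce_mul hφ x).symm

theorem cls_ref (h : Ref L c' c) {x y : I → V} (hy : y ∈ cls L c' T x) : y ∈ cls L c T x := by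
  rw [mem_cls] at *
  intro U hU
  exact h U (mem_below.1 hU).1 y x (hy U hU)

/-- Pythagoras -/
theorem mono (h : Ref L c' c) (f : (I → V) → ℝ) :
    av (fun x => (ce L c' T f x - ce L c T f x) ^ 2) =
      av (fun x => ce L c' T f x ^ 2) - av (fun x => ce L c T f x ^ 2) := by
  have h1 : av (fun x => ce L c' T f x * ce L c T f x) = av (fun x => f x * ce L c T f x) :=
    av_ce_mul fun x y hy => ce_eq f (cls_ref h hy)
  have h2 : av (fun x => ce L c T f x * ce L c T f x) = av (fun x => f x * ce L c T f x) :=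
    av_ce_mul fun x y hy => ce_eq f hy
  have h3 : (fun x => (ce L c' T f x - ce L c T f x) ^ 2) = fun x =>
      (ce L c' T f x ^ 2 - 2 * (ce L c' T f x * ce L c T f x)) +
        ce L c T f x * ce L c T f x := by
    funext x
    ring
  have h4 : av (fun x => ce L c T f x ^ 2) = av (fun x => ce L c T f x * ce L c T f x) :=
    av_congr fun x => by ring
  rw [h3, av_add, av_sub, av_mul_left, h1, h4, h2]
  ring

theorem energy_mono (h : Ref L c' c) (f : (I → V) → ℝ) :
    av (fun x => ce L c T f x ^ 2) ≤ av (fun x => ce L c' T f x ^ 2) := by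
  have h1 := mono (T := T) h f
  have h2 : 0 ≤ av (fun x => (ce L c' T f x - ce L c T f x) ^ 2) :=
    av_nonneg fun x => sq_nonneg _
  linarith

theorem ind_nonneg (a : ℕ) (x : I → V) : 0 ≤ ind c T a x := by
  unfold ind
  split_ifs <;> norm_num

theorem ind_le_one (a : ℕ) (x : I → V) : ind c T a x ≤ 1 := by
  unfold ind
  split_ifs <;> norm_num

theorem ind_dep (hc : Dep T (c T)) (a : ℕ) : Dep T (ind c T a) := by
  intro x y h
  unfold ind
  rw [hc x y h]

/-- the total energy of the colours of one set is at most one -/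
theorem energy_le [Nonempty V] (K : ℕ) (hK : ∀ x, c T x < K)
    (b : Finset I → (I → V) → ℕ) :
    ∑ a ∈ range K, av (fun x => ce L b T (ind c T a) x ^ 2) ≤ 1 := by
  rw [← av_sum]
  refine av_le_one fun x => ?_
  have h1 : ∑ a ∈ range K, ce L b T (ind c T a) x = 1 := by
    rw [← ce_sum]
    have h2 : (fun y => ∑ a ∈ range K, ind c T a y) = fun _ => (1 : ℝ) := by
      funext y
      unfold ind
      rw [sum_ite_eq, if_pos (mem_range.2 (hK y))]
    rw [h2]
    unfold ce
    rw [sum_const, nsmul_eq_mul, mul_one, div_self (ne_of_gt (cls_card_pos x))]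
  calc ∑ a ∈ range K, ce L b T (ind c T a) x ^ 2
      ≤ ∑ a ∈ range K, ce L b T (ind c T a) x := by
        refine sum_le_sum fun a _ => ?_
        have h3 := ce_nonneg (L := L) (c := b) (T := T) (ind_nonneg (c := c) (T := T) a) x
        have h4 := ce_le_one (L := L) (c := b) (T := T) (ind_le_one (c := c) (T := T) a) x
        nlinarith
    _ = 1 := h1

theorem Sys.mono {M N : ℕ} (h : Sys L c M) (hMN : M ≤ N) : Sys L c N :=
  fun T hT => ⟨(h T hT).1, fun x => lt_of_lt_of_le ((h T hT).2 x) hMN⟩

theorem Ref.refl : Ref L c c := fun _ _ _ _ h => h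

theorem Ref.trans {c'' : Finset I → (I → V) → ℕ} (h1 : Ref L c'' c') (h2 : Ref L c' c) :
    Ref L c'' c := fun T hT x y h => h2 T hT x y (h1 T hT x y h)

end

end Pool.Helper16.HR
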