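import Mathlib

/-! Hypergraph removal with bounds governed by the height of the intersection lattice:
definitions. -/

set_option autoImplicit false

namespace Pool.Helper16.HR

open Finset

section

variable {I V : Type} [Fintype I] [DecidableEq I] [Fintype V]

/-- average over all tuples `I → V` -/
noncomputable def av (f : (I → V) → ℝ) : ℝ := (∑ x, f x) / (Fintype.card (I → V) : ℝ)

/-- `f` depends only on the coordinates in `T` -/
def Dep {β : Type} (T : Finset I) (f : (I → V) → β) : Prop :=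
  ∀ x y : I → V, (∀ i ∈ T, x i = y i) → f x = f y

/-- the sets of `L` strictly inside `T` -/
def below (L : Finset (Finset I)) (T : Finset I) : Finset (Finset I) :=
  L.filter (fun U => U ⊂ T)

/-- the class of `x` for the colours of the sets below `T` -/
noncomputable def cls (L : Finset (Finset I)) (c : Finset I → (I → V) → ℕ) (T : Finset I)
    (x : I → V) : Finset (I → V) :=
  univ.filter (fun y => ∀ U ∈ below L T, c U y = c U x)

/-- conditional expectation: average over the class -/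
noncomputable def ce (L : Finset (Finset I)) (c : Finset I → (I → V) → ℕ) (T : Finset I)
    (f : (I → V) → ℝ) (x : I → V) : ℝ :=
  (∑ y ∈ cls L c T x, f y) / ((cls L c T x).card : ℝ)

/-- indicator of the colour `a` at the set `T` -/
noncomputable def ind (c : Finset I → (I → V) → ℕ) (T : Finset I) (a : ℕ) (x : I → V) : ℝ :=
  if c T x = a then 1 else 0

/-- a system of colourings with fewer than `M` colours -/
def Sys (L : Finset (Finset I)) (c : Finset I → (I → V) → ℕ) (M : ℕ) : Prop :=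
  ∀ T ∈ L, Dep T (c T) ∧ ∀ x, c T x < M

/-- refinement -/
def Ref (L : Finset (Finset I)) (c' c : Finset I → (I → V) → ℕ) : Prop :=
  ∀ T ∈ L, ∀ x y, c' T x = c' T y → c T x = c T y

/-- small correlation with products of functions of the sets below `T` -/
def Disc (L : Finset (Finset I)) (T : Finset I) (u : (I → V) → ℝ) (η : ℝ) : Prop :=
  ∀ g : Finset I → (I → V) → ℝ,
    (∀ U ∈ below L T, Dep U (g U) ∧ ∀ x, 0 ≤ g U x ∧ g U x ≤ 1) →
    |av (fun x => u x * ∏ U ∈ below L T, g U x)| ≤ η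

/-- regularity of the colours of `T` -/
def Reg (L : Finset (Finset I)) (c : Finset I → (I → V) → ℕ) (T : Finset I) (β η : ℝ) : Prop :=
  ∀ a : ℕ, ∃ D : (I → V) → ℝ, Dep T D ∧ (∀ x, 0 ≤ D x ∧ D x ≤ 1) ∧
    av (fun x => (D x - ce L c T (ind c T a) x) ^ 2) ≤ β ∧
    Disc L T (fun x => ind c T a x - D x) η

end

/-- a family of sets closed under intersection with a rank function -/
structure Lat {I : Type} [DecidableEq I] (L : Finset (Finset I)) (rk : Finset I → ℕ) : Prop where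
  empty : ∅ ∈ L
  inter : ∀ S ∈ L, ∀ T ∈ L, S ∩ T ∈ L
  mono : ∀ S ∈ L, ∀ T ∈ L, S ⊂ T → rk S < rk T
  pos : ∀ T ∈ L, rk T = 0 → T = ∅

/-- exponents -/
def Gq (q : ℕ) : ℕ := 3 * q ^ 2 + q + 4
def Eq' (q : ℕ) : ℕ := 3 * q ^ 2 + 4 * q + 4

/-- thresholds -/
noncomputable def del (M : ℕ) : ℝ := 1 / (M : ℝ) ^ 3
noncomputable def gam (q M : ℕ) : ℝ := 1 / (M : ℝ) ^ Gq q
noncomputable def bet (q M : ℕ) : ℝ := 1 / (M : ℝ) ^ (2 * Gq q + 3)
noncomputable def eta (q M : ℕ) : ℝ := 1 / (M : ℝ) ^ Eq' q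

/-- number of steps of the fine lemma -/
def Neta (q K : ℕ) : ℕ := q * K ^ (2 * Eq' q) + 1
/-- number of steps of the main loop -/
def Nbet (q M : ℕ) : ℕ := q * M ^ (2 * Gq q + 3) + 2

/-- one round of the main loop -/
def Phi (q : ℕ) (F : ℕ → ℕ) (K : ℕ) : ℕ := F K * 2 ^ Neta q (F K)

/-- the complexity functions -/
def Fq (q : ℕ) : ℕ → ℕ → ℕ
  | 0, M => M
  | j + 1, M => (Phi q (Fq q j))^[Nbet q M] M

/-- regularisation of all sets of rank at most `j`, all sets of rank at most `j + 1` are regular -/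
def RP {I : Type} [Fintype I] [DecidableEq I] (V : Type) [Fintype V]
    (L : Finset (Finset I)) (rk : Finset I → ℕ) (j : ℕ) (F : ℕ → ℕ) : Prop :=
  ∀ M : ℕ, 2 ≤ M → ∀ c0 : Finset I → (I → V) → ℕ, Sys L c0 M →
    ∃ (c : Finset I → (I → V) → ℕ) (Ms : ℕ → ℕ),
      (∀ r s, r ≤ s → Ms s ≤ Ms r) ∧ (∀ r, j < r → Ms r = M) ∧ Ms 0 ≤ F M ∧ Ref L c c0 ∧
      (∀ T ∈ L, j < rk T → c T = c0 T) ∧
      (∀ T ∈ L, Dep T (c T) ∧ ∀ x, c T x < Ms (rk T)) ∧
      (∀ T ∈ L, rk T ≤ j + 1 → Reg L c T (bet L.card (Ms (rk T))) (eta L.card (Ms 0)))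

open Classical in
/-- removal for a family of edges `E`: either the density is at least `θ` or small sets can be
removed -/
def Rem {I : Type} [Fintype I] [DecidableEq I] (V : Type) [Fintype V]
    (E : Finset (Finset I)) (m : ℕ) (θ : ℝ) : Prop :=
  ∀ B : Finset I → (I → V) → Prop, (∀ e ∈ E, Dep e (B e)) →
    θ ≤ av (fun x => ∏ e ∈ E, if B e x then (1 : ℝ) else 0) ∨
    ∃ Z : Finset I → (I → V) → Prop, (∀ e ∈ E, Dep e (Z e)) ∧
      (∀ e ∈ E, av (fun x => if Z e x then (1 : ℝ) else 0) ≤ 1 / m) ∧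
      ∀ x, ¬ ∀ e ∈ E, B e x ∧ ¬ Z e x

/-- the hierarchy of the problem: `Ack (k - 1) = A_k`, `A_1 (i) = 2 ^ i`, `A_k (1) = 2`,
`A_k (i + 1) = A_(k-1) (A_k (i))` -/
def Ack : ℕ → ℕ → ℕ
  | 0, i => 2 ^ i
  | _ + 1, 0 => 1
  | k + 1, i + 1 => Ack k (Ack (k + 1) i)

/-- number of copies -/
noncomputable def copies {h n : ℕ} (E : Finset (Finset (Fin h))) (G : Finset (Finset (Fin n))) :
    ℕ :=
  Nat.card {φ : Fin h → Fin n // Function.Injective φ ∧ ∀ e ∈ E, e.image φ ∈ G}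

/-- the removal lemma for `E`, with `1 / m` for `ε` and `1 / X` for `δ` -/
def Removal {h : ℕ} (E : Finset (Finset (Fin h))) (k m X : ℕ) : Prop :=
  ∀ n : ℕ, ∀ G : Finset (Finset (Fin n)), (∀ g ∈ G, g.card = k) →
    copies E G * X ≤ n ^ h →
    ∃ D : Finset (Finset (Fin n)), D ⊆ G ∧ D.card * m ≤ n ^ k ∧ copies E (G \ D) = 0

/-- `T` is an intersection of edges, nonempty and not the intersection of all edges -/
def Mid {I : Type} [DecidableEq I] (E : Finset (Finset I)) (T : Finset I) : Prop :=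
  T.Nonempty ∧ (∃ S ⊆ E, S.Nonempty ∧ ∀ i, i ∈ T ↔ ∀ e ∈ S, i ∈ e) ∧ ∃ e ∈ E, ¬ T ⊆ e

/-- all chains of such sets have at most `ℓ` members -/
def HtLe {I : Type} [DecidableEq I] (E : Finset (Finset I)) (ℓ : ℕ) : Prop :=
  ∀ C : Finset (Finset I), (∀ T ∈ C, Mid E T) → (∀ S ∈ C, ∀ T ∈ C, S ⊆ T ∨ T ⊆ S) →
    C.card ≤ ℓ

end Pool.Helper16.HR
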