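import Pool.Agent.Helper16.HR.Stmts

/-! EXP and MONF -/

set_option autoImplicit false

namespace Pool.Helper16.HR

open Finset

theorem st_EXP : ST_EXP := by
  intro q X hX
  rcases Nat.eq_zero_or_pos q with hq | hq
  · subst hq
    simp [Nat.one_le_two_pow]
  set s := Nat.sqrt X with hs
  have h1 : 64 * q ^ 2 ≤ s := by
    rw [hs, Nat.le_sqrt]
    calc 64 * q ^ 2 * (64 * q ^ 2) = 4096 * q ^ 4 := by ring
      _ ≤ X := hX
  have h2 : X < (s + 1) * (s + 1) := Nat.lt_succ_sqrt X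
  have h3 : s + 1 ≤ 2 ^ s := Nat.lt_two_pow_self
  have h4 : s * s ≤ X := Nat.sqrt_le X
  have h5 : X ≤ 2 ^ (2 * s) := by
    have : (s + 1) * (s + 1) ≤ 2 ^ s * 2 ^ s := Nat.mul_le_mul h3 h3
    rw [← pow_add] at this
    rw [two_mul]
    omega
  calc X ^ (24 * q ^ 2) ≤ (2 ^ (2 * s)) ^ (24 * q ^ 2) := Nat.pow_le_pow_left h5 _
    _ = 2 ^ (2 * s * (24 * q ^ 2)) := (pow_mul _ _ _).symm
    _ ≤ 2 ^ (s * s) := Nat.pow_le_pow_right (by norm_num) (by nlinarith)
    _ ≤ 2 ^ X := Nat.pow_le_pow_right (by norm_num) h4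

theorem Phi_ge {q : ℕ} {F : ℕ → ℕ} (h : ∀ K, K ≤ F K) (K : ℕ) : K ≤ Phi q F K := by
  unfold Phi
  calc K ≤ F K := h K
    _ = F K * 1 := (mul_one _).symm
    _ ≤ F K * 2 ^ Neta q (F K) := Nat.mul_le_mul_left _ Nat.one_le_two_pow

theorem Phi_mono {q : ℕ} {F : ℕ → ℕ} (h : Monotone F) : Monotone (Phi q F) := by
  intro a b hab
  unfold Phi Neta
  have h1 : F a ≤ F b := h hab
  refine Nat.mul_le_mul h1 (Nat.pow_le_pow_right (by norm_num) ?_)
  have h2 := Nat.pow_le_pow_left h1 (2 * Eq' q)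
  have h3 := Nat.mul_le_mul_left q h2
  omega

theorem st_MONF : ST_MONF := by
  intro q j
  induction j with
  | zero => exact ⟨fun K => le_refl K, fun a b h => h⟩
  | succ j ih =>
    have h1 : id ≤ Phi q (Fq q j) := fun K => Phi_ge ih.1 K
    have h2 : Monotone (Phi q (Fq q j)) := Phi_mono ih.2
    refine ⟨fun K => ?_, fun a b hab => ?_⟩
    · have h3 := Function.id_le_iterate_of_id_le h1 (Nbet q K)
      exact h3 K
    · show (Phi q (Fq q j))^[Nbet q a] a ≤ (Phi q (Fq q j))^[Nbet q b] b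
      have h4 : Nbet q a ≤ Nbet q b := by
        unfold Nbet
        have h5 := Nat.mul_le_mul_left q (Nat.pow_le_pow_left hab (2 * Gq q + 3))
        omega
      have h6 := (h2.iterate (Nbet q a)) hab
      have h7 := Function.monotone_iterate_of_id_le h1 h4 b
      exact le_trans h6 h7

end Pool.Helper16.HR
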