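import Pool.Agent.Helper16.HR.Main
import Pool.Agent.Helper16.HR.Exp

/-! The final form of the bound. -/

set_option autoImplicit false

namespace Pool.Helper16.HR

open Finset

theorem Ack_one_le (k : ℕ) : ∀ i : ℕ, 2 ^ i ≤ Ack k i := by
  induction k with
  | zero => intro i; rw [Ack]
  | succ k ih =>
    intro i
    induction i with
    | zero => rw [Ack]; norm_num
    | succ i ih2 =>
      rw [Ack]
      calc 2 ^ (i + 1) ≤ 2 ^ (Ack (k + 1) i) :=
            Nat.pow_le_pow_right (by norm_num) (le_trans (Nat.lt_two_pow_self) ih2)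
        _ ≤ Ack k (Ack (k + 1) i) := ih _

/-- many injective maps -/
theorem descFactorial_lower (h n : ℕ) (hn : h ≤ n) : n ^ h ≤ h ^ h * n.descFactorial h := by
  have h1 : n ≤ h * (n + 1 - h) ∨ h = 0 := by
    rcases Nat.eq_zero_or_pos h with h0 | h0
    · right; exact h0
    · left
      obtain ⟨a, rfl⟩ := Nat.exists_eq_add_of_le hn
      have : h + a + 1 - h = a + 1 := by omega
      rw [this]
      nlinarith
  rcases h1 with h1 | h1
  · calc n ^ h ≤ (h * (n + 1 - h)) ^ h := Nat.pow_le_pow_left h1 h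
      _ = h ^ h * (n + 1 - h) ^ h := mul_pow _ _ _
      _ ≤ h ^ h * n.descFactorial h :=
          Nat.mul_le_mul_left _ (Nat.pow_sub_le_descFactorial n h)
  · subst h1
    simp

theorem copies_empty_edges (h n : ℕ) (G : Finset (Finset (Fin n))) :
    copies (∅ : Finset (Finset (Fin h))) G = n.descFactorial h := by
  unfold copies
  have e : {φ : Fin h → Fin n // Function.Injective φ ∧
      ∀ e ∈ (∅ : Finset (Finset (Fin h))), e.image φ ∈ G} ≃ (Fin h ↪ Fin n) :=
    { toFun := fun φ => ⟨φ.1, φ.2.1⟩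
      invFun := fun φ => ⟨φ, φ.injective, fun e he => absurd he (notMem_empty e)⟩
      left_inv := fun φ => rfl
      right_inv := fun φ => rfl }
  rw [Nat.card_congr e, Nat.card_eq_fintype_card, Fintype.card_embedding_eq, Fintype.card_fin,
    Fintype.card_fin]

theorem removal_empty (l h k m : ℕ) (hm : 2 ≤ m) :
    Removal (∅ : Finset (Finset (Fin h))) k m (Ack l (m ^ (2 ^ (3 * h + 10)))) := by
  intro n G _ hc
  refine ⟨∅, empty_subset _, by simp, ?_⟩
  rw [copies_empty_edges] at *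
  rw [Nat.descFactorial_eq_zero_iff_lt]
  by_contra hcon
  have hhn : h ≤ n := by omega
  have h1 : h ^ h < Ack l (m ^ (2 ^ (3 * h + 10))) := by
    refine lt_of_lt_of_le ?_ (Ack_one_le l _)
    have h2 : h * h ≤ m ^ (2 ^ (3 * h + 10)) := by
      have h3 : h < 2 ^ h := Nat.lt_two_pow_self
      calc h * h ≤ 2 ^ h * 2 ^ h := Nat.mul_le_mul (le_of_lt h3) (le_of_lt h3)
        _ = 2 ^ (h + h) := (pow_add _ _ _).symm
        _ ≤ 2 ^ (2 ^ (3 * h + 10)) := by
            refine Nat.pow_le_pow_right (by norm_num) ?_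
            have h4 : 3 * h + 10 < 2 ^ (3 * h + 10) := Nat.lt_two_pow_self
            omega
        _ ≤ m ^ (2 ^ (3 * h + 10)) := Nat.pow_le_pow_left hm _
    rcases Nat.eq_zero_or_pos h with h0 | h0
    · subst h0
      have h5 : 1 ≤ m ^ (2 ^ (3 * 0 + 10)) := Nat.one_le_pow _ _ (by omega)
      calc 0 ^ 0 = 1 := by norm_num
        _ < 2 ^ 1 := by norm_num
        _ ≤ 2 ^ (m ^ (2 ^ (3 * 0 + 10))) := Nat.pow_le_pow_right (by norm_num) h5
    · calc h ^ h < (2 ^ h) ^ h := Nat.pow_lt_pow_left Nat.lt_two_pow_self (by omega)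
        _ = 2 ^ (h * h) := (pow_mul _ _ _).symm
        _ ≤ 2 ^ (m ^ (2 ^ (3 * h + 10))) := Nat.pow_le_pow_right (by norm_num) h2
  have h2 := descFactorial_lower h n hhn
  have h3 : 1 ≤ n.descFactorial h := by
    rw [Nat.one_le_iff_ne_zero]
    intro h0
    rw [Nat.descFactorial_eq_zero_iff_lt] at h0
    omega
  have h4 : n ^ h < n.descFactorial h * Ack l (m ^ (2 ^ (3 * h + 10))) := by
    calc n ^ h ≤ h ^ h * n.descFactorial h := h2
      _ < Ack l (m ^ (2 ^ (3 * h + 10))) * n.descFactorial h :=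
          Nat.mul_lt_mul_of_pos_right h1 h3
      _ = _ := mul_comm _ _
  omega

end Pool.Helper16.HR
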