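import Pool.Agent.Helper16.HR.Fin

/-! From `Removal` to the final form. -/

set_option autoImplicit false

namespace Pool.Helper16.HR

open Finset

/-- the conditions of the final theorem -/
def Cond {h : ℕ} (E : Finset (Finset (Fin h))) (ℓ : ℕ) : Prop :=
  HtLe E ℓ ∨ (∀ e ∈ E, ∀ f ∈ E, e ≠ f → (e ∩ f).card < ℓ) ∨
    (∀ i, (E.filter (fun e => i ∈ e)).card ≤ ℓ) ∨ E.card ≤ ℓ + 1

theorem removal_all (MAIN : ST_MAIN) (HT1 : ST_HT1) (HT2 : ST_HT2) (HT3 : ST_HT3) (l : ℕ)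
    (hl : 1 ≤ l) (h k : ℕ) (E : Finset (Finset (Fin h))) (hk : 1 ≤ k) (hE : ∀ e ∈ E, e.card = k)
    (hc : Cond E (l + 1)) (m : ℕ) (hm : 2 ≤ m) :
    Removal E k m (Ack l (m ^ (2 ^ (3 * h + 10)))) := by
  rcases E.eq_empty_or_nonempty with h0 | h0
  · subst h0
    exact removal_empty l h k m hm
  · have hh : HtLe E (l + 1) := by
      rcases hc with h1 | h1 | h1 | h1
      · exact h1
      · exact HT1 (Fin h) E k (l + 1) (by omega) hE h1
      · exact HT2 (Fin h) E (l + 1) h1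
      · exact HT3 (Fin h) E (l + 1) h1
    exact MAIN l hl h k E hk hE h0 hh m (by omega)

theorem final_form (MAIN : ST_MAIN) (HT1 : ST_HT1) (HT2 : ST_HT2) (HT3 : ST_HT3) (l : ℕ)
    (hl : 1 ≤ l) (h k : ℕ) (E : Finset (Finset (Fin h))) (hk : 1 ≤ k) (hE : ∀ e ∈ E, e.card = k)
    (hc : Cond E (l + 1)) (ε : ℝ) (hε : 0 < ε) (hε1 : ε < 1) (n : ℕ)
    (G : Finset (Finset (Fin n))) (hG : ∀ g ∈ G, g.card = k)
    (hcop : ((Nat.card {φ : Fin h → Fin n //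
        Function.Injective φ ∧ ∀ e ∈ E, e.image φ ∈ G} : ℕ) : ℝ) ≤
      1 / (Ack l (⌈1 / ε⌉₊ ^ (2 ^ (3 * h + 10))) : ℝ) * (n : ℝ) ^ h) :
    ∃ D ⊆ G, (D.card : ℝ) ≤ ε * (n : ℝ) ^ k ∧
      ∀ φ : Fin h → Fin n, Function.Injective φ → ∃ e ∈ E, e.image φ ∉ G \ D := by
  set m := ⌈1 / ε⌉₊ with hm
  have h1 : 1 < 1 / ε := by
    rw [lt_div_iff₀ hε]
    linarith
  have hm1 : 1 / ε ≤ (m : ℝ) := Nat.le_ceil _
  have hm2 : 2 ≤ m := by
    have : (1 : ℝ) < m := lt_of_lt_of_le h1 hm1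
    have : 1 < m := by exact_mod_cast this
    omega
  have hR := removal_all MAIN HT1 HT2 HT3 l hl h k E hk hE hc m hm2
  set X := Ack l (m ^ (2 ^ (3 * h + 10))) with hX
  have hXpos : 0 < X := lt_of_lt_of_le (by positivity) (Ack_one_le l _)
  have hXR : (0 : ℝ) < (X : ℝ) := by exact_mod_cast hXpos
  have hcop2 : copies E G * X ≤ n ^ h := by
    have h2 : ((copies E G : ℕ) : ℝ) ≤ 1 / (X : ℝ) * (n : ℝ) ^ h := hcop
    rw [one_div, inv_mul_eq_div, le_div_iff₀ hXR] at h2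
    exact_mod_cast h2
  obtain ⟨D, hD, hDm, hD0⟩ := hR n G hG hcop2
  refine ⟨D, hD, ?_, ?_⟩
  · have hmR : (0 : ℝ) < (m : ℝ) := by
      have : 0 < m := by omega
      exact_mod_cast this
    have h3 : (D.card : ℝ) * m ≤ (n : ℝ) ^ k := by exact_mod_cast hDm
    have h4 : (D.card : ℝ) * 1 ≤ (D.card : ℝ) * (ε * m) := by
      refine mul_le_mul_of_nonneg_left ?_ (Nat.cast_nonneg _)
      rw [div_le_iff₀ hε] at hm1
      linarith
    calc (D.card : ℝ) ≤ ε * ((D.card : ℝ) * m) := by linarith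
      _ ≤ ε * (n : ℝ) ^ k := mul_le_mul_of_nonneg_left h3 hε.le
  · intro φ hφ
    by_contra hcon
    push Not at hcon
    unfold copies at hD0
    rw [Nat.card_eq_zero] at hD0
    rcases hD0 with h5 | h5
    · exact h5.false ⟨φ, hφ, hcon⟩
    · exact absurd (inferInstance : Finite {φ : Fin h → Fin n // Function.Injective φ ∧
        ∀ e ∈ E, e.image φ ∈ G \ D}) (not_finite_iff_infinite.2 h5)

end Pool.Helper16.HR
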