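import Pool.Agent.Helper16.HR.Stmts

/-! FINE -/

set_option autoImplicit false
set_option linter.unusedSectionVars false

namespace Pool.Helper16.HR

open Finset

section

variable {I V : Type} [Fintype I] [DecidableEq I] [Fintype V] [Nonempty V]

/-- total energy of the colours `a < K` of the sets in `S` -/
noncomputable def totE (L : Finset (Finset I)) (S : Finset (Finset I))
    (c b : Finset I → (I → V) → ℕ) (K : ℕ) : ℝ :=
  ∑ T ∈ S, ∑ a ∈ range K, av (fun x => ce L b T (ind c T a) x ^ 2)

theorem totE_le (L S : Finset (Finset I)) (c b : Finset I → (I → V) → ℕ) (K : ℕ)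
    (hS : S ⊆ L) (hK : ∀ T ∈ S, ∀ x, c T x < K) : totE L S c b K ≤ L.card := by
  unfold totE
  calc ∑ T ∈ S, ∑ a ∈ range K, av (fun x => ce L b T (ind c T a) x ^ 2)
      ≤ ∑ T ∈ S, (1 : ℝ) := sum_le_sum fun T hT => energy_le K (hK T hT) b
    _ = S.card := by simp
    _ ≤ L.card := by exact_mod_cast card_le_card hS

theorem totE_step (L S : Finset (Finset I)) (c b b' : Finset I → (I → V) → ℕ) (K : ℕ)
    (href : Ref L b' b) (T : Finset I) (hT : T ∈ S) (a : ℕ) (ha : a < K) (δ : ℝ)
    (h : av (fun x => ce L b T (ind c T a) x ^ 2) + δ ≤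
      av (fun x => ce L b' T (ind c T a) x ^ 2)) :
    totE L S c b K + δ ≤ totE L S c b' K := by
  unfold totE
  rw [← add_sum_erase S _ hT, ← add_sum_erase S _ hT,
    ← add_sum_erase (range K) _ (mem_range.2 ha), ← add_sum_erase (range K) _ (mem_range.2 ha)]
  have h1 : ∑ x ∈ (range K).erase a, av (fun y => ce L b T (ind c T x) y ^ 2) ≤
      ∑ x ∈ (range K).erase a, av (fun y => ce L b' T (ind c T x) y ^ 2) :=
    sum_le_sum fun x _ => energy_mono href _
  have h2 : ∑ x ∈ S.erase T, ∑ a ∈ range K, av (fun y => ce L b x (ind c x a) y ^ 2) ≤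
      ∑ x ∈ S.erase T, ∑ a ∈ range K, av (fun y => ce L b' x (ind c x a) y ^ 2) :=
    sum_le_sum fun x _ => sum_le_sum fun a _ => energy_mono href _
  linarith

theorem totE_nonneg (L S : Finset (Finset I)) (c b : Finset I → (I → V) → ℕ) (K : ℕ) :
    0 ≤ totE L S c b K :=
  sum_nonneg fun _ _ => sum_nonneg fun _ _ => av_nonneg fun _ => sq_nonneg _

end

theorem st_FINE (INC : ST_INC) : ST_FINE := by
  intro I V _ _ _ _ L rk hL c K hc j N η hη hN
  classical
  set S := L.filter (fun T => rk T = j + 1) with hS
  have key : ∀ s : ℕ,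
      (∃ b : Finset I → (I → V) → ℕ, Sys L b (K * 2 ^ s) ∧ Ref L b c ∧
        (∀ T ∈ L, j < rk T → b T = c T) ∧
        ∀ T ∈ L, rk T = j + 1 → ∀ a : ℕ,
          Disc L T (fun x => ind c T a x - ce L b T (ind c T a) x) η) ∨
      (∃ b : Finset I → (I → V) → ℕ, Sys L b (K * 2 ^ s) ∧ Ref L b c ∧
        (∀ T ∈ L, j < rk T → b T = c T) ∧ s * η ^ 2 ≤ totE L S c b K) := by
    intro s
    induction s with
    | zero =>
      right
      refine ⟨c, ?_, Ref.refl, fun _ _ _ => rfl, ?_⟩
      · rw [pow_zero, mul_one]
        exact hc
      · rw [Nat.cast_zero, zero_mul]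
        exact totE_nonneg _ _ _ _ _
    | succ s ih =>
      have hle : K * 2 ^ s ≤ K * 2 ^ (s + 1) :=
        Nat.mul_le_mul_left _ (Nat.pow_le_pow_right (by norm_num) (by omega))
      rcases ih with ⟨b, h1, h2, h3, h4⟩ | ⟨b, h1, h2, h3, h4⟩
      · left
        exact ⟨b, h1.mono hle, h2, h3, h4⟩
      · by_cases hgood : ∀ T ∈ L, rk T = j + 1 → ∀ a : ℕ,
          Disc L T (fun x => ind c T a x - ce L b T (ind c T a) x) η
        · left
          exact ⟨b, h1.mono hle, h2, h3, hgood⟩
        · right
          push Not at hgood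
          obtain ⟨T, hT, hrT, a, hbad⟩ := hgood
          have hTS : T ∈ S := mem_filter.2 ⟨hT, hrT⟩
          have haK : a < K := by
            by_contra hcon
            apply hbad
            have h5 : ind c T a = fun _ => (0 : ℝ) := by
              funext x
              unfold ind
              have := (hc T hT).2 x
              rw [if_neg (by omega)]
            have h6 : ce L b T (ind c T a) = fun _ => (0 : ℝ) := by
              funext x
              unfold ce
              rw [h5]
              simp
            intro g _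
            have h7 : (fun x => (ind c T a x - ce L b T (ind c T a) x) *
                ∏ U ∈ below L T, g U x) = fun _ => (0 : ℝ) := by
              funext x
              rw [h6, h5]
              ring
            rw [h7, av_const, abs_zero]
            exact le_of_lt hη
          obtain ⟨c', h5, h6, h7, h8⟩ := INC I V L b T (ind c T a) η (le_of_lt hη)
            (fun U hU => (h1 U hU).1) hbad
          refine ⟨c', ?_, h7.trans h2, ?_, ?_⟩
          · intro U hU
            by_cases hUT : U ∈ below L T
            · refine ⟨(h6 U hUT).1, fun x => ?_⟩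
              have h9 := (h6 U hUT).2 (K * 2 ^ s) (h1 U hU).2 x
              rw [pow_succ]
              calc c' U x < 2 * (K * 2 ^ s) := h9
                _ = K * (2 ^ s * 2) := by ring
            · rw [h5 U hUT]
              exact (h1.mono hle) U hU
          · intro U hU hjU
            by_cases hUT : U ∈ below L T
            · have h9 := hL.mono U hU T hT (mem_below.1 hUT).2
              omega
            · rw [h5 U hUT]
              exact h3 U hU hjU
          · have h9 := totE_step L S c b c' K h7 T hTS a haK (η ^ 2) h8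
            push_cast
            linarith
  rcases key N with ⟨b, h1, h2, h3, h4⟩ | ⟨b, h1, h2, h3, h4⟩
  · exact ⟨b, h1, h2, h3, h4⟩
  · exfalso
    have h5 := totE_le L S c b K (filter_subset _ _) fun T hT => (hc T (mem_filter.1 hT).1).2
    linarith

end Pool.Helper16.HR
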