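import Pool.Agent.Helper16.HR.Stmts

/-! HT2 and HT3 -/

set_option autoImplicit false
set_option linter.unusedSectionVars false

namespace Pool.Helper16.HR

open Finset

section

variable {I : Type} [Fintype I] [DecidableEq I]

/-- number of edges containing `T` -/
def ovr (E : Finset (Finset I)) (T : Finset I) : Finset (Finset I) := E.filter (fun e => T ⊆ e)

theorem ovr_lt (E : Finset (Finset I)) {S T : Finset I} (hS : Mid E S) (hST : S ⊂ T) :
    (ovr E T).card < (ovr E S).card := by
  obtain ⟨-, ⟨R, hR, -, hRi⟩, -⟩ := hS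
  apply card_lt_card
  rw [ssubset_iff_of_subset]
  · -- some edge of `R` does not contain `T`
    by_contra hcon
    push Not at hcon
    apply hST.2
    intro i hi
    rw [hRi]
    intro e he
    have h1 : e ∈ ovr E S := by
      unfold ovr
      rw [mem_filter]
      exact ⟨hR he, fun j hj => (hRi j).1 hj e he⟩
    have h2 := hcon e h1
    unfold ovr at h2
    rw [mem_filter] at h2
    exact h2.2 hi
  · intro e he
    unfold ovr at *
    rw [mem_filter] at *
    exact ⟨he.1, hST.1.trans he.2⟩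

theorem chain_card (E : Finset (Finset I)) (C : Finset (Finset I)) (hC : ∀ T ∈ C, Mid E T)
    (hch : ∀ S ∈ C, ∀ T ∈ C, S ⊆ T ∨ T ⊆ S) (ℓ : ℕ)
    (hℓ : ∀ T ∈ C, (ovr E T).card ≤ ℓ) : C.card ≤ ℓ := by
  classical
  have hinj : Set.InjOn (fun T => (ovr E T).card) (C : Set (Finset I)) := by
    intro S hS T hT hST
    dsimp only at hST
    by_contra hne
    rcases hch S hS T hT with h | h
    · have := ovr_lt E (hC S hS) (h.ssubset_of_ne hne)
      omega
    · have := ovr_lt E (hC T hT) (h.ssubset_of_ne (Ne.symm hne))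
      omega
  have h1 : C.image (fun T => (ovr E T).card) ⊆ Finset.Icc 1 ℓ := by
    intro a ha
    rw [mem_image] at ha
    obtain ⟨T, hT, rfl⟩ := ha
    rw [mem_Icc]
    refine ⟨?_, hℓ T hT⟩
    obtain ⟨-, ⟨R, hR, ⟨e, he⟩, hRi⟩, -⟩ := hC T hT
    apply card_pos.2
    refine ⟨e, ?_⟩
    unfold ovr
    rw [mem_filter]
    exact ⟨hR he, fun j hj => (hRi j).1 hj e he⟩
  have h2 := card_le_card h1
  rw [card_image_of_injOn hinj, Nat.card_Icc] at h2
  omega

end

theorem st_HT2 : ST_HT2 := by
  intro I _ _ E ℓ hdeg C hC hch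
  refine chain_card E C hC hch ℓ fun T hT => ?_
  obtain ⟨⟨i, hi⟩, -, -⟩ := hC T hT
  refine le_trans (card_le_card ?_) (hdeg i)
  intro e he
  unfold ovr at he
  rw [mem_filter] at *
  exact ⟨he.1, he.2 hi⟩

theorem st_HT3 : ST_HT3 := by
  intro I _ _ E ℓ hE C hC hch
  refine chain_card E C hC hch ℓ fun T hT => ?_
  obtain ⟨-, -, ⟨e, he, hTe⟩⟩ := hC T hT
  have h1 : ovr E T ⊂ E := by
    rw [ssubset_iff_of_subset (by unfold ovr; exact filter_subset _ _)]
    refine ⟨e, he, ?_⟩
    unfold ovr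
    rw [mem_filter]
    exact fun h => hTe h.2
  have h2 := card_lt_card h1
  omega

end Pool.Helper16.HR
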