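import Pool.Agent.Helper16.HR.Stmts

/-! INC -/

set_option autoImplicit false
set_option linter.unusedSectionVars false

namespace Pool.Helper16.HR

open Finset

theorem st_INC (MULT : ST_MULT) : ST_INC := by
  intro I V _ _ _ _ L c T f η hη hc hnot
  classical
  unfold Disc at hnot
  push Not at hnot
  obtain ⟨g, hg, hgt⟩ := hnot
  obtain ⟨b, hb, hbt⟩ := MULT I V (below L T) (fun x => f x - ce L c T f x) g η hg hgt
  refine ⟨fun U x => if U ∈ below L T then 2 * c U x + b U x else c U x, ?_, ?_, ?_, ?_⟩
  · intro U hU
    funext x
    simp only [hU, if_false]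
  · intro U hU
    refine ⟨?_, ?_⟩
    · intro x y hxy
      simp only [hU, if_true]
      rw [hc U (mem_below.1 hU).1 x y hxy, (hb U hU).1 x y hxy]
    · intro K hK x
      simp only [hU, if_true]
      have h1 := hK x
      have h2 := (hb U hU).2 x
      omega
  · intro U _ x y hxy
    by_cases hU : U ∈ below L T
    · simp only [hU, if_true] at hxy
      have h1 := (hb U hU).2 x
      have h2 := (hb U hU).2 y
      omega
    · simp only [hU, if_false] at hxy
      exact hxy
  · set c' : Finset I → (I → V) → ℕ :=
      fun U x => if U ∈ below L T then 2 * c U x + b U x else c U x with hc'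
    have href : Ref L c' c := by
      intro U _ x y hxy
      by_cases hU : U ∈ below L T
      · simp only [hc', hU, if_true] at hxy
        have h1 := (hb U hU).2 x
        have h2 := (hb U hU).2 y
        omega
      · simp only [hc', hU, if_false] at hxy
        exact hxy
    set φ : (I → V) → ℝ := fun x => ∏ U ∈ below L T, (b U x : ℝ) with hφ
    have hφc : ∀ x, ∀ y ∈ cls L c' T x, φ y = φ x := by
      intro x y hy
      rw [mem_cls] at hy
      refine prod_congr rfl fun U hU => ?_
      have h1 := hy U hU
      simp only [hc', hU, if_true] at h1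
      have h2 := (hb U hU).2 x
      have h3 := (hb U hU).2 y
      have h4 : b U y = b U x := by omega
      rw [h4]
    have hφ2 : av (fun x => φ x ^ 2) ≤ 1 := by
      refine av_le_one fun x => ?_
      have h1 : 0 ≤ φ x := prod_nonneg fun U _ => Nat.cast_nonneg _
      have h2 : φ x ≤ 1 := by
        refine prod_le_one (fun U _ => Nat.cast_nonneg _) fun U hU => ?_
        have := (hb U hU).2 x
        have : b U x ≤ 1 := by omega
        exact_mod_cast this
      exact pow_le_one₀ h1 h2
    have h1 : av (fun x => (f x - ce L c T f x) * φ x) =
        av (fun x => (ce L c' T f x - ce L c T f x) * φ x) := by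
      have h2 : (fun x => (f x - ce L c T f x) * φ x) =
          fun x => f x * φ x - ce L c T f x * φ x := by
        funext x
        ring
      have h3 : (fun x => (ce L c' T f x - ce L c T f x) * φ x) =
          fun x => ce L c' T f x * φ x - ce L c T f x * φ x := by
        funext x
        ring
      rw [h2, h3, av_sub, av_sub, av_ce_mul hφc]
    have h4 := av_mul_sq_le (fun x => ce L c' T f x - ce L c T f x) φ
    have h5 := mono (T := T) href f
    have h6 : η ^ 2 ≤ av (fun x => (f x - ce L c T f x) * φ x) ^ 2 := by
      rw [← sq_abs (av _)]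
      exact pow_le_pow_left₀ hη (le_of_lt hbt) 2
    rw [h1] at h6
    have h7 : 0 ≤ av (fun x => (ce L c' T f x - ce L c T f x) ^ 2) :=
      av_nonneg fun x => sq_nonneg _
    have h8 : av (fun x => (ce L c' T f x - ce L c T f x) ^ 2) * av (fun x => φ x ^ 2) ≤
        av (fun x => (ce L c' T f x - ce L c T f x) ^ 2) := by
      nlinarith
    linarith

end Pool.Helper16.HR
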