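import Pool.Agent.Helper16.HR.Stmts

/-! MAIN -/

set_option autoImplicit false

namespace Pool.Helper16.HR

open Finset

/-- the regularisation statement for all ranks -/
theorem rp_all (RP0 : ST_RP0) (STEP : ST_STEP) (MONF : ST_MONF)
    (I V : Type) [Fintype I] [DecidableEq I] [Fintype V] [Nonempty V]
    (L : Finset (Finset I)) (rk : Finset I → ℕ) (hL : Lat L rk) (j : ℕ) :
    RP V L rk j (Fq L.card j) := by
  induction j with
  | zero => exact RP0 I V L rk hL
  | succ j ih =>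
    have h := STEP I V L rk hL j (Fq L.card j) (MONF L.card j).1 (MONF L.card j).2 ih
    exact h

theorem Fq_pos (MONF : ST_MONF) (q j M : ℕ) (hM : 1 ≤ M) : 1 ≤ Fq q j M :=
  le_trans hM ((MONF q j).1 M)

theorem copies_nonneg_zero {h n : ℕ} (E : Finset (Finset (Fin h))) (hE : E.Nonempty) :
    copies E (∅ : Finset (Finset (Fin n))) = 0 := by
  unfold copies
  have : IsEmpty {φ : Fin h → Fin n // Function.Injective φ ∧ ∀ e ∈ E, e.image φ ∈ (∅ : Finset (Finset (Fin n)))} := by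
    constructor
    rintro ⟨φ, -, h2⟩
    obtain ⟨e, he⟩ := hE
    exact absurd (h2 e he) (Finset.notMem_empty _)
  exact Nat.card_of_isEmpty

theorem st_MAIN (RKH : ST_RKH) (RP0 : ST_RP0) (STEP : ST_STEP) (MONF : ST_MONF) (SET : ST_SET)
    (KERN : ST_KERN) (ACKB : ST_ACKB) (FNUM : ST_FNUM) (HYP : ST_HYP) : ST_MAIN := by
  intro l hl h k E hk hE hne hht m hm
  classical
  rcases Nat.lt_or_ge m 2 with hm2 | hm2
  · -- m = 1
    have hm1 : m = 1 := by omega
    subst hm1
    intro n G hG _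
    refine ⟨G, Finset.Subset.refl _, ?_, ?_⟩
    · have h1 : G ⊆ (univ : Finset (Fin n)).powersetCard k := by
        intro g hg
        rw [Finset.mem_powersetCard]
        exact ⟨Finset.subset_univ _, hG g hg⟩
      have h2 := Finset.card_le_card h1
      rw [Finset.card_powersetCard, Finset.card_univ, Fintype.card_fin] at h2
      have h3 := Nat.choose_le_pow n k
      rw [mul_one]
      exact le_trans h2 h3
    · rw [Finset.sdiff_self]
      exact copies_nonneg_zero E hne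
  · obtain ⟨K, L, rk, hK, hL, hrk, hEL, hcov, hq⟩ := RKH (Fin h) E hne (l + 1) hht
    rw [Fintype.card_fin] at hq
    set q := L.card with hqdef
    have hq1 : 1 ≤ q := by
      rw [hqdef]
      exact Finset.card_pos.mpr ⟨∅, hL.empty⟩
    set e := E.card with hedef
    have he1 : 1 ≤ e := Finset.card_pos.mpr hne
    have he2 : e ≤ 2 ^ h := by
      have := Finset.card_le_univ E
      rw [Fintype.card_finset, Fintype.card_fin] at this
      exact this
    set M := 2 ^ (14 + 6 * h) * m with hM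
    have hpow : (1 : ℕ) ≤ 2 ^ (14 + 6 * h) := Nat.one_le_two_pow
    have hM2 : 2 ≤ M := by
      rw [hM]
      calc 2 ≤ m := hm2
        _ = 1 * m := (one_mul m).symm
        _ ≤ 2 ^ (14 + 6 * h) * m := Nat.mul_le_mul_right m hpow
    have hFv1 : 1 ≤ Fq q l M := Fq_pos MONF q l M (by omega)
    have hMge : 4096 * q ^ 4 ≤ M := by
      have h1 : q ^ 4 ≤ (2 ^ h) ^ 4 := Nat.pow_le_pow_left hq 4
      have h2 : (2 ^ h) ^ 4 ≤ 2 ^ (6 * h) := by
        rw [← pow_mul]
        exact Nat.pow_le_pow_right (by norm_num) (by omega)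
      calc 4096 * q ^ 4 ≤ 4096 * 2 ^ (6 * h) := Nat.mul_le_mul_left _ (le_trans h1 h2)
        _ ≤ 2 ^ 14 * 2 ^ (6 * h) := Nat.mul_le_mul_right _ (by norm_num)
        _ = 2 ^ (14 + 6 * h) * 1 := by rw [← pow_add, mul_one]
        _ ≤ M := Nat.mul_le_mul_left _ (by omega)
    have hFvle : Fq q l M ≤ Ack l (M ^ (2 * Gq q + 6)) := ACKB q hq1 l M hMge
    set θ : ℝ := 1 / (2 * (Fq q l M : ℝ) ^ (3 * q)) / (2 * ((m * e : ℕ) : ℝ)) with hθ
    have hnum := FNUM l h m q e hl hm2 hq1 hq he1 he2 (Fq q l M) hFv1 hFvle θ hθ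
    have hme : 1 ≤ m * e := Nat.one_le_iff_ne_zero.mpr (by positivity)
    have hmeR : (1 : ℝ) ≤ ((m * e : ℕ) : ℝ) := by exact_mod_cast hme
    have hFR : (1 : ℝ) ≤ (Fq q l M : ℝ) := by exact_mod_cast hFv1
    have hFRp : (1 : ℝ) ≤ (Fq q l M : ℝ) ^ (3 * q) := one_le_pow₀ hFR
    have hθ0 : 0 < θ := by rw [hθ]; positivity
    have hθ0' : (0 : ℝ) < 1 / (2 * (Fq q l M : ℝ) ^ (3 * q)) := by positivity
    have hθ1 : θ ≤ 1 := by
      rw [hθ, div_div]
      rw [div_le_one (by positivity)]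
      nlinarith
    refine HYP h k m _ E hne hE hk hm θ hθ0 hθ1 ?_ hnum.1 hnum.2
    intro n hn
    have : Nonempty (Fin n) := ⟨⟨0, by omega⟩⟩
    refine KERN (Fin h) (Fin n) E K hK (m * E.card) _ hme hθ0' ?_
    refine SET (Fin h) (Fin n) L rk hL l (Fq q l) ?_ hrk _ hEL hcov (2 * (m * E.card)) M ?_
      hM2 ?_
    · exact rp_all RP0 STEP MONF (Fin h) (Fin n) L rk hL l
    · exact le_trans hme (by rw [two_mul]; exact Nat.le_add_left _ _)
    · have h1 : q * e ≤ 2 ^ h * 2 ^ h := Nat.mul_le_mul hq he2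
      have h2 : 8 * (2 ^ h * 2 ^ h) ≤ 2 ^ (14 + 6 * h) := by
        have h3 : 8 * (2 ^ h * 2 ^ h) = 2 ^ (3 + (h + h)) := by
          rw [pow_add, pow_add]; norm_num
        rw [h3]
        exact Nat.pow_le_pow_right (by norm_num) (by omega)
      calc 4 * q * (2 * (m * e)) = 8 * (q * e) * m := by ring
        _ ≤ 8 * (2 ^ h * 2 ^ h) * m := Nat.mul_le_mul_right m (Nat.mul_le_mul_left 8 h1)
        _ ≤ 2 ^ (14 + 6 * h) * m := Nat.mul_le_mul_right m h2

end Pool.Helper16.HR
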