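import Pool.Agent.Helper16.HR.Stmts

/-! MULT -/

set_option autoImplicit false
set_option linter.unusedSectionVars false

namespace Pool.Helper16.HR

open Finset

section

variable {I V : Type} [Fintype I] [DecidableEq I] [Fintype V] [Nonempty V]

theorem av_comm' (F : (I → V) → (I → V) → ℝ) :
    av (fun w => av (fun x => F w x)) = av (fun x => av (fun w => F w x)) := by
  unfold av
  rw [← sum_div, ← sum_div, sum_comm]

/-- the projection of `h` to functions of the coordinates in `U` -/
theorem av_proj (U : Finset I) (h φ : (I → V) → ℝ) (hφ : Dep U φ) :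
    av (fun x => h x * φ x) = av (fun x => av (fun w => h (U.piecewise x w)) * φ x) := by
  rw [av_mix U (fun x => h x * φ x)]
  rw [av_comm']
  refine av_congr fun x => ?_
  have h1 : ∀ w, φ (U.piecewise x w) = φ x := by
    intro w
    exact hφ _ _ fun i hi => by simp [hi]
  rw [← av_mul_right]
  exact av_congr fun w => by rw [h1 w]

theorem rho_dep (U : Finset I) (h : (I → V) → ℝ) :
    Dep U (fun x => av (fun w => h (U.piecewise x w))) := by
  intro x y hxy
  refine av_congr fun w => ?_
  have : U.piecewise x w = U.piecewise y w := by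
    funext i
    by_cases hi : i ∈ U
    · simp [hi, hxy i hi]
    · simp [hi]
  rw [this]

/-- one step: replace one factor by the indicator of a set -/
theorem mult_one (U : Finset I) (h φ : (I → V) → ℝ) (hφ : Dep U φ)
    (hφ1 : ∀ x, 0 ≤ φ x ∧ φ x ≤ 1) :
    ∃ b : (I → V) → ℕ, Dep U b ∧ (∀ x, b x < 2) ∧
      |av (fun x => h x * φ x)| ≤ |av (fun x => h x * (b x : ℝ))| := by
  classical
  set ρ : (I → V) → ℝ := fun x => av (fun w => h (U.piecewise x w)) with hρ
  have hρd : Dep U ρ := rho_dep U h
  have key : ∀ b : (I → V) → ℕ, Dep U b →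
      av (fun x => h x * (b x : ℝ)) = av (fun x => ρ x * (b x : ℝ)) := by
    intro b hb
    exact av_proj U h (fun x => (b x : ℝ)) fun x y hxy => congrArg Nat.cast (hb x y hxy)
  have hkey : av (fun x => h x * φ x) = av (fun x => ρ x * φ x) := av_proj U h φ hφ
  rcases le_total 0 (av (fun x => h x * φ x)) with h0 | h0
  · refine ⟨fun x => if 0 < ρ x then 1 else 0, ?_, ?_, ?_⟩
    · intro x y hxy
      simp only [hρd x y hxy]
    · intro x
      dsimp only
      split_ifs <;> norm_num
    · rw [abs_of_nonneg h0]
      refine le_trans ?_ (le_abs_self _)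
      rw [hkey, key _ (by intro x y hxy; simp only [hρd x y hxy])]
      refine av_mono fun x => ?_
      have := hφ1 x
      split_ifs with hx
      · push_cast
        nlinarith [this.1, this.2]
      · push_cast
        nlinarith [this.1, this.2, not_lt.1 hx]
  · refine ⟨fun x => if ρ x < 0 then 1 else 0, ?_, ?_, ?_⟩
    · intro x y hxy
      simp only [hρd x y hxy]
    · intro x
      dsimp only
      split_ifs <;> norm_num
    · rw [abs_of_nonpos h0]
      refine le_trans ?_ (neg_le_abs _)
      rw [hkey, key _ (by intro x y hxy; simp only [hρd x y hxy])]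
      refine neg_le_neg (av_mono fun x => ?_)
      have := hφ1 x
      split_ifs with hx
      · push_cast
        nlinarith [this.1, this.2]
      · push_cast
        nlinarith [this.1, this.2, not_lt.1 hx]

end

theorem st_MULT : ST_MULT := by
  intro I V _ _ _ _ S
  classical
  induction S using Finset.induction_on with
  | empty =>
    intro u g η _ h
    refine ⟨fun _ _ => 0, by simp, ?_⟩
    simpa using h
  | insert U S hU ih =>
    intro u g η hg h
    -- apply the induction hypothesis with `u * g U` instead of `u`
    have h1 : η < |av (fun x => (u x * g U x) * ∏ W ∈ S, g W x)| := by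
      have : (fun x => (u x * g U x) * ∏ W ∈ S, g W x) =
          fun x => u x * ∏ W ∈ insert U S, g W x := by
        funext x
        rw [prod_insert hU]
        ring
      rw [this]
      exact h
    obtain ⟨b, hb, hb2⟩ := ih (fun x => u x * g U x) g η
      (fun W hW => hg W (mem_insert_of_mem hW)) h1
    obtain ⟨b', hb', hb'1, hb'2⟩ := mult_one U (fun x => u x * ∏ W ∈ S, (b W x : ℝ)) (g U)
      (hg U (mem_insert_self U S)).1 (hg U (mem_insert_self U S)).2
    refine ⟨fun W => if W = U then b' else b W, ?_, ?_⟩
    · intro W hW
      dsimp only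
      split_ifs with h2
      · subst h2
        exact ⟨hb', hb'1⟩
      · exact hb W ((mem_insert.1 hW).resolve_left h2)
    · refine lt_of_lt_of_le hb2 ?_
      have h3 : (fun x => u x * g U x * ∏ W ∈ S, (b W x : ℝ)) =
          fun x => (u x * ∏ W ∈ S, (b W x : ℝ)) * g U x := by
        funext x
        ring
      have h4 : (fun x => u x * ∏ W ∈ insert U S, (((if W = U then b' else b W) x : ℕ) : ℝ)) =
          fun x => (u x * ∏ W ∈ S, (b W x : ℝ)) * (b' x : ℝ) := by
        funext x
        rw [prod_insert hU, if_pos rfl]
        have h5 : ∏ W ∈ S, (((if W = U then b' else b W) x : ℕ) : ℝ) = ∏ W ∈ S, (b W x : ℝ) := by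
          refine prod_congr rfl fun W hW => ?_
          have : W ≠ U := fun h6 => hU (h6 ▸ hW)
          rw [if_neg this]
        rw [h5]
        ring
      rw [h3]
      show _ ≤ |av (fun x => u x * ∏ W ∈ insert U S, (((if W = U then b' else b W) x : ℕ) : ℝ))|
      rw [h4]
      exact hb'2

end Pool.Helper16.HR
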