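import Pool.Agent.Helper16.HR.Stmts

/-! HT1 and PRIM -/

set_option autoImplicit false
set_option linter.unusedSectionVars false

namespace Pool.Helper16.HR

open Finset

theorem st_HT1 : ST_HT1 := by
  intro I _ _ E k ℓ hℓ hk hint C hC hch
  classical
  have hinj : Set.InjOn (fun T : Finset I => T.card) (C : Set (Finset I)) := by
    intro S hS T hT hST
    dsimp only at hST
    rcases hch S hS T hT with h | h
    · exact eq_of_subset_of_card_le h (le_of_eq hST.symm)
    · exact (eq_of_subset_of_card_le h (le_of_eq hST)).symm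
  have h1 : C.image (fun T => T.card) ⊆ insert k (Finset.Icc 1 (ℓ - 1)) := by
    intro a ha
    rw [mem_image] at ha
    obtain ⟨T, hT, rfl⟩ := ha
    obtain ⟨hne, ⟨R, hR, ⟨e, he⟩, hRi⟩, -⟩ := hC T hT
    rw [mem_insert, mem_Icc]
    by_cases hall : ∀ f ∈ R, f = e
    · left
      have : T = e := by
        ext i
        rw [hRi]
        constructor
        · intro h
          exact h e he
        · intro h f hf
          rw [hall f hf]
          exact h
      rw [this]
      exact hk e (hR he)
    · right
      push Not at hall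
      obtain ⟨f, hf, hfe⟩ := hall
      have h2 : T ⊆ f ∩ e := by
        intro i hi
        rw [mem_inter]
        exact ⟨(hRi i).1 hi f hf, (hRi i).1 hi e he⟩
      have h3 := card_le_card h2
      have h4 := hint f (hR hf) e (hR he) hfe
      have h5 := card_pos.2 hne
      omega
  have h2 := card_le_card h1
  rw [card_image_of_injOn hinj] at h2
  have h3 := card_insert_le k (Finset.Icc 1 (ℓ - 1))
  rw [Nat.card_Icc] at h3
  omega

theorem prim_pow : Primrec₂ (fun a b : ℕ => a ^ b) :=
  Primrec₂.unpaired'.1 Nat.Primrec.pow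

theorem st_PRIM : ST_PRIM := by
  intro l
  have h1 : Primrec (Ack l) := by
    induction l with
    | zero =>
      have h2 : Primrec (fun i : ℕ => 2 ^ i) :=
        prim_pow.comp (Primrec.const 2) Primrec.id
      refine h2.of_eq fun i => ?_
      simp [Ack]
    | succ l ih =>
      have h2 : Primrec₂ (fun (_ r : ℕ) => Ack l r) := ih.comp₂ Primrec₂.right
      have h3 := Primrec.nat_rec₁ 1 h2
      refine h3.of_eq fun i => ?_
      induction i with
      | zero => simp [Ack]
      | succ i ih2 =>
        show Ack l (Nat.rec 1 (fun _ r => Ack l r) i) = Ack (l + 1) (i + 1)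
        rw [ih2, Ack]
  refine ⟨h1, ?_⟩
  have h4 : Primrec₂ (fun h m : ℕ => m ^ (2 ^ (3 * h + 10))) := by
    refine prim_pow.comp₂ Primrec₂.right ?_
    refine prim_pow.comp₂ (Primrec₂.const 2) ?_
    refine Primrec.nat_add.comp₂ ?_ (Primrec₂.const 10)
    exact Primrec.nat_mul.comp₂ (Primrec₂.const 3) Primrec₂.left
  exact h1.comp₂ h4

end Pool.Helper16.HR
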