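import Pool.Agent.Helper16.HR.Stmts

/-! RP0 -/

set_option autoImplicit false

namespace Pool.Helper16.HR

open Finset

theorem bet_pos (q M : ℕ) (hM : 2 ≤ M) : 0 < bet q M := by
  unfold bet
  have : (0 : ℝ) < M := by
    have : 0 < M := by omega
    exact_mod_cast this
  positivity

theorem eta_pos (q M : ℕ) (hM : 2 ≤ M) : 0 < eta q M := by
  unfold eta
  have : (0 : ℝ) < M := by
    have : 0 < M := by omega
    exact_mod_cast this
  positivity

theorem st_RP0 : ST_RP0 := by
  intro I V _ _ _ _ L rk hL M hM c0 hc0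
  refine ⟨c0, fun _ => M, fun _ _ _ => le_refl _, fun _ _ => rfl, le_refl _, Ref.refl,
    fun _ _ _ => rfl, fun T hT => hc0 T hT, ?_⟩
  intro T hT hr a
  have hdep : ∀ U ∈ L, Dep U (c0 U) := fun U hU => (hc0 U hU).1
  refine ⟨ce L c0 T (ind c0 T a), ce_dep hdep _, fun x => ⟨ce_nonneg (ind_nonneg a) x,
    ce_le_one (ind_le_one a) x⟩, ?_, ?_⟩
  · have h1 : av (fun x : I → V => (ce L c0 T (ind c0 T a) x - ce L c0 T (ind c0 T a) x) ^ 2) = 0 := by
      have : (fun x : I → V => (ce L c0 T (ind c0 T a) x - ce L c0 T (ind c0 T a) x) ^ 2) =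
          fun _ => (0 : ℝ) := by
        funext x
        ring
      rw [this]
      exact av_const 0
    rw [h1]
    exact le_of_lt (bet_pos _ _ hM)
  · intro g hg
    have h2 : ∀ U ∈ below L T, U = ∅ := by
      intro U hU
      rw [mem_below] at hU
      have h3 := hL.mono U hU.1 T hT hU.2
      exact hL.pos U hU.1 (by omega)
    have h4 : ∀ x y : I → V, ∏ U ∈ below L T, g U x = ∏ U ∈ below L T, g U y := by
      intro x y
      refine prod_congr rfl fun U hU => ?_
      refine (hg U hU).1 x y fun i hi => ?_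
      rw [h2 U hU] at hi
      exact absurd hi (notMem_empty i)
    obtain ⟨x0⟩ : Nonempty (I → V) := inferInstance
    have h5 : (fun x => (ind c0 T a x - ce L c0 T (ind c0 T a) x) * ∏ U ∈ below L T, g U x) =
        fun x => (ind c0 T a x - ce L c0 T (ind c0 T a) x) * ∏ U ∈ below L T, g U x0 := by
      funext x
      rw [h4 x x0]
    rw [h5, av_mul_right, av_sub, show av (fun x => ce L c0 T (ind c0 T a) x) =
      av (ce L c0 T (ind c0 T a)) from rfl, av_ce]
    rw [show av (fun x => ind c0 T a x) = av (ind c0 T a) from rfl, sub_self, zero_mul, abs_zero]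
    exact le_of_lt (eta_pos _ _ hM)

end Pool.Helper16.HR
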