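import Pool.Agent.Helper16.HR.Base

/-! Statements of the modules. -/

set_option autoImplicit false

namespace Pool.Helper16.HR

open Finset

/-- MULT: from functions with values in `[0, 1]` to sets. -/
def ST_MULT : Prop := ∀ (I V : Type) [Fintype I] [DecidableEq I] [Fintype V] [Nonempty V]
  (S : Finset (Finset I)) (u : (I → V) → ℝ) (g : Finset I → (I → V) → ℝ) (η : ℝ),
  (∀ U ∈ S, Dep U (g U) ∧ ∀ x, 0 ≤ g U x ∧ g U x ≤ 1) →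
  η < |av (fun x => u x * ∏ U ∈ S, g U x)| →
  ∃ b : Finset I → (I → V) → ℕ, (∀ U ∈ S, Dep U (b U) ∧ ∀ x, b U x < 2) ∧
    η < |av (fun x => u x * ∏ U ∈ S, (b U x : ℝ))|

/-- INC: energy increment. -/
def ST_INC : Prop := ∀ (I V : Type) [Fintype I] [DecidableEq I] [Fintype V] [Nonempty V]
  (L : Finset (Finset I)) (c : Finset I → (I → V) → ℕ) (T : Finset I) (f : (I → V) → ℝ) (η : ℝ),
  0 ≤ η → (∀ U ∈ L, Dep U (c U)) → ¬ Disc L T (fun x => f x - ce L c T f x) η →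
  ∃ c' : Finset I → (I → V) → ℕ, (∀ U, U ∉ below L T → c' U = c U) ∧
    (∀ U ∈ below L T, Dep U (c' U) ∧ ∀ K, (∀ x, c U x < K) → ∀ x, c' U x < 2 * K) ∧
    Ref L c' c ∧
    av (fun x => ce L c T f x ^ 2) + η ^ 2 ≤ av (fun x => ce L c' T f x ^ 2)

/-- FINE: a refinement with small discrepancies. -/
def ST_FINE : Prop := ∀ (I V : Type) [Fintype I] [DecidableEq I] [Fintype V] [Nonempty V]
  (L : Finset (Finset I)) (rk : Finset I → ℕ), Lat L rk →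
  ∀ (c : Finset I → (I → V) → ℕ) (K : ℕ), Sys L c K → ∀ (j N : ℕ) (η : ℝ), 0 < η →
  (L.card : ℝ) < N * η ^ 2 →
  ∃ c' : Finset I → (I → V) → ℕ, Sys L c' (K * 2 ^ N) ∧ Ref L c' c ∧
    (∀ T ∈ L, j < rk T → c' T = c T) ∧
    ∀ T ∈ L, rk T = j + 1 → ∀ a : ℕ,
      Disc L T (fun x => ind c T a x - ce L c' T (ind c T a) x) η

/-- RP0: nothing to do for rank at most one. -/
def ST_RP0 : Prop := ∀ (I V : Type) [Fintype I] [DecidableEq I] [Fintype V] [Nonempty V]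
  (L : Finset (Finset I)) (rk : Finset I → ℕ), Lat L rk → RP V L rk 0 (fun M => M)

/-- STEP: the main loop. -/
def ST_STEP : Prop := ∀ (I V : Type) [Fintype I] [DecidableEq I] [Fintype V] [Nonempty V]
  (L : Finset (Finset I)) (rk : Finset I → ℕ), Lat L rk → ∀ (j : ℕ) (F : ℕ → ℕ),
  (∀ K, K ≤ F K) → Monotone F → RP V L rk j F →
  RP V L rk (j + 1) (fun M => (Phi L.card F)^[Nbet L.card M] M)

/-- MONF: the complexity functions are monotone and at least the identity. -/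
def ST_MONF : Prop := ∀ q j : ℕ, (∀ K, K ≤ Fq q j K) ∧ Monotone (Fq q j)

/-- CU: the uniform part is negligible. -/
def ST_CU : Prop := ∀ (I V : Type) [Fintype I] [DecidableEq I] [Fintype V] [Nonempty V]
  (L : Finset (Finset I)) (rk : Finset I → ℕ), Lat L rk →
  ∀ (c : Finset I → (I → V) → ℕ), (∀ U ∈ L, Dep U (c U)) → ∀ (col : Finset I → ℕ),
  ∀ T ∈ L, ∀ S ∈ L, ¬ T ⊆ S → ∀ W : Finset (Finset I), W ⊆ L → (∀ T' ∈ W, ¬ T ⊆ T') →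
  ∀ (g u : (I → V) → ℝ) (η : ℝ), Dep S g → (∀ x, 0 ≤ g x ∧ g x ≤ 1) → Dep T u →
  Disc L T u η → |av (fun x => u x * (g x * ∏ T' ∈ W, ind c T' (col T') x))| ≤ η

/-- CB: from `L²` to `L¹` on a class. -/
def ST_CB : Prop := ∀ (I V : Type) [Fintype I] [DecidableEq I] [Fintype V] [Nonempty V]
  (L : Finset (Finset I)) (c : Finset I → (I → V) → ℕ) (T : Finset I) (x0 : I → V)
  (f : (I → V) → ℝ) (γ : ℝ), 0 ≤ γ →
  ∑ y ∈ cls L c T x0, f y ^ 2 ≤ γ ^ 2 * ((cls L c T x0).card : ℝ) →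
  av (fun x => |f x| * ∏ U ∈ below L T, ind c U (c U x0) x) ≤
    γ * av (fun x => ∏ U ∈ below L T, ind c U (c U x0) x)

/-- CLM: the counting lemma. -/
def ST_CLM : Prop := ∀ (I V : Type) [Fintype I] [DecidableEq I] [Fintype V] [Nonempty V]
  (L : Finset (Finset I)) (rk : Finset I → ℕ), Lat L rk →
  ∀ (c : Finset I → (I → V) → ℕ), (∀ U ∈ L, Dep U (c U)) →
  ∀ (x0 : I → V) (D : Finset I → (I → V) → ℝ) (d : Finset I → ℝ) (δ γ : ℕ → ℝ) (η : ℝ),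
  (∀ T ∈ L, Dep T (D T) ∧ ∀ x, 0 ≤ D T x ∧ D T x ≤ 1) →
  (∀ T ∈ L, δ (rk T) ≤ d T ∧ d T ≤ 1) → d ∅ = 1 →
  (∀ r, 0 < δ r ∧ δ r ≤ 1 ∧ 0 ≤ γ r) → (∀ r s, r ≤ s → δ r ≤ δ s) →
  (∀ r s, r ≤ s → γ r * (1 / δ r) ^ (L.card ^ 2) ≤ γ s * (1 / δ s) ^ (L.card ^ 2)) → 0 ≤ η →
  (∀ T ∈ L, av (fun x => |D T x - d T| * ∏ U ∈ below L T, ind c U (c U x0) x) ≤
    γ (rk T) * av (fun x => ∏ U ∈ below L T, ind c U (c U x0) x)) →
  (∀ T ∈ L, Disc L T (fun x => ind c T (c T x0) x - D T x) η) →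
  (∀ s, 2 ^ (L.card + 1) * (γ s * (1 / δ s) ^ (L.card ^ 2) +
    η * (1 / δ 0) ^ (L.card ^ 2 + L.card)) ≤ 1 / 2) →
  (∏ T ∈ L, d T) / 2 ≤ av (fun x => ∏ T ∈ L, ind c T (c T x0) x)

/-- CNT: the counting lemma with the thresholds of the regularity lemma. -/
def ST_CNT : Prop := ∀ (I V : Type) [Fintype I] [DecidableEq I] [Fintype V] [Nonempty V]
  (L : Finset (Finset I)) (rk : Finset I → ℕ), Lat L rk →
  ∀ (c : Finset I → (I → V) → ℕ), (∀ U ∈ L, Dep U (c U)) →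
  ∀ (Ms : ℕ → ℕ) (x0 : I → V) (D : Finset I → (I → V) → ℝ),
  (∀ r s, r ≤ s → Ms s ≤ Ms r) → (∀ r, 2 ≤ Ms r) →
  (∀ T ∈ L, Dep T (D T) ∧ ∀ x, 0 ≤ D T x ∧ D T x ≤ 1) →
  (∀ T ∈ L, del (Ms (rk T)) ≤ ce L c T (ind c T (c T x0)) x0) →
  (∀ T ∈ L, ∑ y ∈ cls L c T x0, (D T y - ce L c T (ind c T (c T x0)) x0) ^ 2 ≤
    gam L.card (Ms (rk T)) ^ 2 * ((cls L c T x0).card : ℝ)) →
  (∀ T ∈ L, Disc L T (fun x => ind c T (c T x0) x - D T x) (eta L.card (Ms 0))) →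
  del (Ms 0) ^ L.card / 2 ≤ av (fun x => ∏ T ∈ L, ind c T (c T x0) x)

/-- the bad points of `T` -/
def BadPt {I V : Type} [Fintype I] [DecidableEq I] [Fintype V] (L : Finset (Finset I))
    (c : Finset I → (I → V) → ℕ) (T : Finset I) (D : ℕ → (I → V) → ℝ) (δ γ : ℝ) (x : I → V) :
    Prop :=
  ce L c T (ind c T (c T x)) x < δ ∨
  γ ^ 2 * ((cls L c T x).card : ℝ) <
    ∑ y ∈ cls L c T x, (D (c T x) y - ce L c T (ind c T (c T x)) x) ^ 2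

open Classical in
/-- BAD: there are few bad points. -/
def ST_BAD : Prop := ∀ (I V : Type) [Fintype I] [DecidableEq I] [Fintype V] [Nonempty V]
  (L : Finset (Finset I)) (c : Finset I → (I → V) → ℕ), (∀ U ∈ L, Dep U (c U)) →
  ∀ T ∈ L, ∀ (M : ℕ), (∀ x, c T x < M) → ∀ (D : ℕ → (I → V) → ℝ) (β γ δ : ℝ), 0 < γ → 0 ≤ δ →
  (∀ a, av (fun x => (D a x - ce L c T (ind c T a) x) ^ 2) ≤ β) →
  Dep T (BadPt L c T D δ γ) ∧
  av (fun x => if BadPt L c T D δ γ x then (1 : ℝ) else 0) ≤ M * δ + M * (β / γ ^ 2)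

/-- SET: removal for set systems. -/
def ST_SET : Prop := ∀ (I V : Type) [Fintype I] [DecidableEq I] [Fintype V] [Nonempty V]
  (L : Finset (Finset I)) (rk : Finset I → ℕ), Lat L rk → ∀ (j : ℕ) (F : ℕ → ℕ),
  RP V L rk j F → (∀ T ∈ L, rk T ≤ j + 1) → ∀ E : Finset (Finset I), E ⊆ L →
  (∀ T ∈ L, ∃ e ∈ E, T ⊆ e) → ∀ m M : ℕ, 1 ≤ m → 2 ≤ M → 4 * L.card * m ≤ M →
  Rem V E m (1 / (2 * (F M : ℝ) ^ (3 * L.card)))

/-- KERN: common vertices of all edges. -/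
def ST_KERN : Prop := ∀ (I V : Type) [Fintype I] [DecidableEq I] [Fintype V] [Nonempty V]
  (E : Finset (Finset I)) (K : Finset I), (∀ e ∈ E, K ⊆ e) → ∀ (m : ℕ) (θ : ℝ), 1 ≤ m → 0 < θ →
  Rem V (E.image (fun e => e \ K)) (2 * m) θ → Rem V E m (θ / (2 * m))

open Classical in
/-- NINJ: few maps are not injective. -/
def ST_NINJ : Prop := ∀ h n : ℕ, 1 ≤ n →
  2 * ((univ : Finset (Fin h → Fin n)).filter (fun φ => ¬ Function.Injective φ)).card * n ≤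
    h ^ 2 * n ^ h

open Classical in
/-- IMG: the number of images of an edge. -/
def ST_IMG : Prop := ∀ (h n : ℕ) (e : Finset (Fin h)) (Z : (Fin h → Fin n) → Prop), Dep e Z →
  (((univ : Finset (Fin h → Fin n)).filter (fun x => Z x)).image (fun x => e.image x)).card *
    n ^ h ≤ n ^ e.card * ((univ : Finset (Fin h → Fin n)).filter (fun x => Z x)).card

/-- HYP: from set systems to hypergraphs. -/
def ST_HYP : Prop := ∀ (h k m X : ℕ) (E : Finset (Finset (Fin h))), E.Nonempty →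
  (∀ e ∈ E, e.card = k) → 1 ≤ k → 1 ≤ m → ∀ θ : ℝ, 0 < θ → θ ≤ 1 →
  (∀ n : ℕ, 1 ≤ n → Rem (Fin n) E (m * E.card) θ) → 2 / θ ≤ (X : ℝ) →
  (2 * (h : ℝ) ^ 2 / θ) ^ h ≤ (X : ℝ) → Removal E k m X

/-- RKH: the rank function of a family of bounded height. -/
def ST_RKH : Prop := ∀ (I : Type) [Fintype I] [DecidableEq I] (E : Finset (Finset I)),
  E.Nonempty → ∀ ℓ : ℕ, HtLe E ℓ →
  ∃ (K : Finset I) (L : Finset (Finset I)) (rk : Finset I → ℕ), (∀ e ∈ E, K ⊆ e) ∧ Lat L rk ∧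
    (∀ T ∈ L, rk T ≤ ℓ) ∧ E.image (fun e => e \ K) ⊆ L ∧
    (∀ T ∈ L, ∃ e ∈ E.image (fun e => e \ K), T ⊆ e) ∧ L.card ≤ 2 ^ Fintype.card I

/-- HT1: bounded intersections. -/
def ST_HT1 : Prop := ∀ (I : Type) [Fintype I] [DecidableEq I] (E : Finset (Finset I)) (k ℓ : ℕ),
  1 ≤ ℓ → (∀ e ∈ E, e.card = k) → (∀ e ∈ E, ∀ f ∈ E, e ≠ f → (e ∩ f).card < ℓ) → HtLe E ℓ

/-- HT2: bounded degrees. -/
def ST_HT2 : Prop := ∀ (I : Type) [Fintype I] [DecidableEq I] (E : Finset (Finset I)) (ℓ : ℕ),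
  (∀ i : I, (E.filter (fun e => i ∈ e)).card ≤ ℓ) → HtLe E ℓ

/-- HT3: few edges. -/
def ST_HT3 : Prop := ∀ (I : Type) [Fintype I] [DecidableEq I] (E : Finset (Finset I)) (ℓ : ℕ),
  E.card ≤ ℓ + 1 → HtLe E ℓ

/-- EXP: an exponential beats a power. -/
def ST_EXP : Prop := ∀ q X : ℕ, 4096 * q ^ 4 ≤ X → X ^ (24 * q ^ 2) ≤ 2 ^ X

/-- ACKB: the complexity functions are bounded by the Ackermann hierarchy. -/
def ST_ACKB : Prop := ∀ q : ℕ, 1 ≤ q → ∀ j M : ℕ, 4096 * q ^ 4 ≤ M →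
  Fq q j M ≤ Ack j (M ^ (2 * Gq q + 6))

/-- FNUM: the final numbers. -/
def ST_FNUM : Prop := ∀ l h m q e : ℕ, 1 ≤ l → 2 ≤ m → 1 ≤ q → q ≤ 2 ^ h → 1 ≤ e → e ≤ 2 ^ h →
  ∀ Fv : ℕ, 1 ≤ Fv → Fv ≤ Ack l ((2 ^ (14 + 6 * h) * m) ^ (2 * Gq q + 6)) → ∀ θ : ℝ,
  θ = 1 / (2 * (Fv : ℝ) ^ (3 * q)) / (2 * ((m * e : ℕ) : ℝ)) →
  2 / θ ≤ (Ack l (m ^ (2 ^ (3 * h + 10))) : ℝ) ∧
  (2 * (h : ℝ) ^ 2 / θ) ^ h ≤ (Ack l (m ^ (2 ^ (3 * h + 10))) : ℝ)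

/-- PRIM: every level of the hierarchy is primitive recursive. -/
def ST_PRIM : Prop := ∀ l : ℕ, Primrec (Ack l) ∧
  Primrec₂ (fun h m : ℕ => Ack l (m ^ (2 ^ (3 * h + 10))))

/-- MAIN -/
def ST_MAIN : Prop := ∀ l : ℕ, 1 ≤ l → ∀ (h k : ℕ) (E : Finset (Finset (Fin h))),
  1 ≤ k → (∀ e ∈ E, e.card = k) → E.Nonempty → HtLe E (l + 1) →
  ∀ m : ℕ, 1 ≤ m → Removal E k m (Ack l (m ^ (2 ^ (3 * h + 10))))

end Pool.Helper16.HR
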